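import Pool.Agent.Helper993.HeisDet

set_option autoImplicit false

noncomputable section

namespace Pool.Agent.TH461.J893

open Polynomial Finset Pool.Agent.Helper993.HeisDet

/-- the block polynomial -/
def eP (m : ℕ) (M η ζ : ℂ) : Polynomial ℂ :=
  (1 - X ^ 2) ^ m + C (∏ j ∈ range m, (M * (1 - η * ζ ^ j))) * X ^ m

/-- sum of the logarithmic Mahler measures of all block polynomials -/
def S (n k m : ℕ) (M : ℂ) : ℝ :=
  ∑ η ∈ nthRootsFinset n (1 : ℂ), ∑ ζ ∈ nthRootsFinset k (1 : ℂ), (eP m M η ζ).logMahlerMeasure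

theorem eP_eval (m : ℕ) (M η ζ z : ℂ) (hz : 1 - z ^ 2 ≠ 0) :
    (eP m M η ζ).eval z = (1 - z ^ 2) ^ m * B m (z * M / (1 - z ^ 2)) η ζ := by
  simp only [eP, B, eval_add, eval_mul, eval_pow, eval_sub, eval_one, eval_X, eval_C]
  rw [mul_add, mul_one]
  congr 1
  have h1 : ∀ j ∈ range m, z * M / (1 - z ^ 2) * (1 - η * ζ ^ j) =
      (z / (1 - z ^ 2)) * (M * (1 - η * ζ ^ j)) := by
    intro j _; ring
  have h3 : ∏ j ∈ range m, (z * M / (1 - z ^ 2) * (1 - η * ζ ^ j)) =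
      (z / (1 - z ^ 2)) ^ m * ∏ j ∈ range m, (M * (1 - η * ζ ^ j)) := by
    rw [Finset.prod_congr rfl h1, Finset.prod_mul_distrib (f := fun _ => z / (1 - z ^ 2)),
      Finset.prod_const, Finset.card_range]
  rw [h3, div_pow]
  have h2 : (1 - z ^ 2) ^ m ≠ 0 := pow_ne_zero _ hz
  field_simp

theorem eP_coeff_zero {m : ℕ} (hm : 0 < m) (M η ζ : ℂ) : (eP m M η ζ).coeff 0 = 1 := by
  rw [coeff_zero_eq_eval_zero]
  simp [eP, hm.ne']

theorem eP_ne_zero {m : ℕ} (hm : 0 < m) (M η ζ : ℂ) : eP m M η ζ ≠ 0 := by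
  intro h
  have := eP_coeff_zero hm M η ζ
  rw [h] at this
  simp at this

theorem one_le_mahler_of_coeff (p : Polynomial ℂ) (h : p.coeff 0 = 1) : 1 ≤ p.mahlerMeasure := by
  have := p.norm_coeff_le_choose_mul_mahlerMeasure 0
  rw [h] at this
  simpa using this

theorem logMahler_nonneg_of_coeff (p : Polynomial ℂ) (h : p.coeff 0 = 1) :
    0 ≤ p.logMahlerMeasure := by
  rw [logMahlerMeasure_eq_log_MahlerMeasure]
  exact Real.log_nonneg (one_le_mahler_of_coeff p h)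

theorem logMahler_eP_nonneg {m : ℕ} (hm : 0 < m) (M η ζ : ℂ) :
    0 ≤ (eP m M η ζ).logMahlerMeasure :=
  logMahler_nonneg_of_coeff _ (eP_coeff_zero hm M η ζ)

theorem logMahler_prod {ι : Type} (s : Finset ι) (f : ι → Polynomial ℂ)
    (hf : ∀ i ∈ s, f i ≠ 0) :
    (∏ i ∈ s, f i).logMahlerMeasure = ∑ i ∈ s, (f i).logMahlerMeasure := by
  classical
  induction s using Finset.induction_on with
  | empty => simp
  | insert a s ha ih =>
    rw [Finset.prod_insert ha, Finset.sum_insert ha, logMahlerMeasure_mul_eq_add_logMahlerMeasure,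
      ih (fun i hi => hf i (Finset.mem_insert_of_mem hi))]
    refine mul_ne_zero (hf a (Finset.mem_insert_self a s)) ?_
    rw [Finset.prod_ne_zero_iff]
    exact fun i hi => hf i (Finset.mem_insert_of_mem hi)

/-- the sum is the logarithmic Mahler measure of the product -/
theorem S_eq {n k m : ℕ} (hm : 0 < m) (M : ℂ) :
    S n k m M = (∏ η ∈ nthRootsFinset n (1 : ℂ), ∏ ζ ∈ nthRootsFinset k (1 : ℂ),
      eP m M η ζ).logMahlerMeasure := by
  unfold S
  rw [logMahler_prod]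
  · refine Finset.sum_congr rfl fun η _ => ?_
    rw [logMahler_prod]
    exact fun i _ => eP_ne_zero hm _ _ _
  · intro η _
    rw [Finset.prod_ne_zero_iff]
    exact fun i _ => eP_ne_zero hm _ _ _

theorem circInt (p : Polynomial ℂ) : CircleIntegrable (fun z => Real.log ‖p.eval z‖) 0 1 := by
  rw [circleIntegrable_def]
  exact p.intervalIntegrable_mahlerMeasure

theorem logMahler_le {p : Polynomial ℂ} {c : ℝ} (hc : 1 ≤ c)
    (h : ∀ z : ℂ, ‖z‖ = 1 → ‖p.eval z‖ ≤ c) : p.logMahlerMeasure ≤ Real.log c := by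
  rw [logMahlerMeasure_def]
  apply Real.circleAverage_mono_on_of_le_circle (circInt p)
  intro z hz
  have hz1 : ‖z‖ = 1 := by simpa using hz
  by_cases h0 : ‖p.eval z‖ = 0
  · rw [h0, Real.log_zero]
    exact Real.log_nonneg hc
  · exact Real.log_le_log (lt_of_le_of_ne (norm_nonneg _) (Ne.symm h0)) (h z hz1)

theorem le_logMahler {p : Polynomial ℂ} {c : ℝ} (hc : 0 < c)
    (h : ∀ z : ℂ, ‖z‖ = 1 → c ≤ ‖p.eval z‖) : Real.log c ≤ p.logMahlerMeasure := by
  rw [logMahlerMeasure_def]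
  have h1 : Real.circleAverage (fun _ : ℂ => Real.log c) 0 1 = Real.log c :=
    Real.circleAverage_const _ _ _
  rw [← h1]
  apply Real.circleAverage_mono (circleIntegrable_const _ _ _) (circInt p)
  intro z hz
  have hz1 : ‖z‖ = 1 := by simpa using hz
  exact Real.log_le_log hc (h z hz1)

/-- bound of one block -/
theorem eP_le {m : ℕ} (M : ℂ) {η ζ z : ℂ} (hη : ‖η‖ = 1) (hζ : ‖ζ‖ = 1)
    (hz : ‖z‖ = 1) (hm : 0 < m) : ‖(eP m M η ζ).eval z‖ ≤ (2 * ‖M‖ + 2) ^ m := by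
  simp only [eP, eval_add, eval_mul, eval_pow, eval_sub, eval_one, eval_X, eval_C]
  have h1 : ‖(1 - z ^ 2) ^ m‖ ≤ 2 ^ m := by
    rw [norm_pow]
    gcongr
    calc ‖1 - z ^ 2‖ ≤ ‖(1 : ℂ)‖ + ‖z ^ 2‖ := norm_sub_le _ _
      _ = 2 := by rw [norm_pow, hz]; norm_num
  have h2 : ‖(∏ j ∈ range m, (M * (1 - η * ζ ^ j))) * z ^ m‖ ≤ (2 * ‖M‖) ^ m := by
    rw [norm_mul, norm_pow, hz, one_pow, mul_one, norm_prod]
    calc ∏ j ∈ range m, ‖M * (1 - η * ζ ^ j)‖ ≤ ∏ j ∈ range m, (2 * ‖M‖) := by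
          apply Finset.prod_le_prod
          · intro i _; exact norm_nonneg _
          · intro i _
            rw [norm_mul]
            have : ‖1 - η * ζ ^ i‖ ≤ 2 := by
              calc ‖1 - η * ζ ^ i‖ ≤ ‖(1:ℂ)‖ + ‖η * ζ ^ i‖ := norm_sub_le _ _
                _ = 2 := by rw [norm_mul, norm_pow, hη, hζ]; norm_num
            have hN : (0:ℝ) ≤ ‖M‖ := norm_nonneg _
            nlinarith
      _ = (2 * ‖M‖) ^ m := by simp
  have h3 : (2 : ℝ) ^ m + (2 * ‖M‖) ^ m ≤ (2 * ‖M‖ + 2) ^ m := by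
    have := pow_add_pow_le (x := (2 * ‖M‖ : ℝ)) (y := 2) (by positivity) (by norm_num) hm.ne'
    linarith
  calc _ ≤ ‖(1 - z ^ 2) ^ m‖ + ‖(∏ j ∈ range m, (M * (1 - η * ζ ^ j))) * z ^ m‖ :=
        norm_add_le _ _
    _ ≤ _ := by linarith

theorem logMahler_eP_le {m : ℕ} (M : ℂ) {η ζ : ℂ} (hη : ‖η‖ = 1) (hζ : ‖ζ‖ = 1) (hm : 0 < m) :
    (eP m M η ζ).logMahlerMeasure ≤ m * Real.log (2 * ‖M‖ + 2) := by
  rw [← Real.log_pow]
  apply logMahler_le
  · have : (0:ℝ) ≤ ‖M‖ := norm_nonneg _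
    exact one_le_pow₀ (by linarith)
  · exact fun z hz => eP_le M hη hζ hz hm

theorem prod_primitive {m : ℕ} (hm : 0 < m) {ζ : ℂ} (hζ : IsPrimitiveRoot ζ m) (M η : ℂ) :
    ∏ j ∈ range m, (M * (1 - η * ζ ^ j)) = M ^ m * (1 - η ^ m) := by
  have h := B_primitive hm hζ M η
  unfold B at h
  exact add_left_cancel h

theorem logMahler_one_sub_sq (m : ℕ) : (((1 : Polynomial ℂ) - X ^ 2) ^ m).logMahlerMeasure = 0 := by
  have h0 : (1 : Polynomial ℂ) - X ^ 2 ≠ 0 := by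
    intro h
    have := congrArg (eval 0) h
    simp at this
  have h1 : ((1 : Polynomial ℂ) - X ^ 2).logMahlerMeasure = 0 := by
    have h2 : (1 : Polynomial ℂ) - X ^ 2 = C (-1) * ((X - C 1) * (X + C 1)) := by
      simp; ring
    rw [h2] at h0 ⊢
    rw [logMahlerMeasure_mul_eq_add_logMahlerMeasure h0,
      logMahlerMeasure_mul_eq_add_logMahlerMeasure (right_ne_zero_of_mul h0),
      logMahlerMeasure_X_sub_C, logMahlerMeasure_X_add_C, logMahlerMeasure_const]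
    simp
  have h3 : ((1 : Polynomial ℂ) - X ^ 2) ^ m = ∏ _i ∈ range m, ((1 : Polynomial ℂ) - X ^ 2) := by
    simp
  rw [h3, logMahler_prod _ _ (fun _ _ => h0), h1]
  simp

theorem S_type1 (j : ℕ) (M : ℂ) : S (3 ^ (j + 1)) (3 ^ (j + 1)) (3 ^ (j + 1)) M
    ≤ (3 ^ (j + 1) * 3 ^ j * 3 ^ (j + 1) : ℝ) * Real.log (2 * ‖M‖ + 2) := by
  unfold S
  have hm : 0 < 3 ^ (j + 1) := by positivity
  calc ∑ η ∈ nthRootsFinset (3 ^ (j + 1)) (1 : ℂ), ∑ ζ ∈ nthRootsFinset (3 ^ (j + 1)) (1 : ℂ),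
        (eP (3 ^ (j + 1)) M η ζ).logMahlerMeasure
      ≤ ∑ η ∈ nthRootsFinset (3 ^ (j + 1)) (1 : ℂ),
          (3 ^ j * 3 ^ (j + 1) : ℝ) * Real.log (2 * ‖M‖ + 2) := by
        apply Finset.sum_le_sum
        intro η hη
        have hη1 := norm_eq_one_of_mem hm hη
        rw [mem_nthRootsFinset hm] at hη
        rw [roots_split, Finset.sum_union (roots_disj j)]
        have h1 : ∑ ζ ∈ primitiveRoots (3 ^ (j + 1)) ℂ,
            (eP (3 ^ (j + 1)) M η ζ).logMahlerMeasure = 0 := by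
          apply Finset.sum_eq_zero
          intro ζ hζ
          rw [mem_primitiveRoots hm] at hζ
          unfold eP
          rw [prod_primitive hm hζ, hη]
          simp only [sub_self, mul_zero, map_zero, zero_mul, add_zero]
          exact logMahler_one_sub_sq _
        rw [h1, zero_add]
        calc ∑ ζ ∈ nthRootsFinset (3 ^ j) (1 : ℂ), (eP (3 ^ (j + 1)) M η ζ).logMahlerMeasure
            ≤ ∑ ζ ∈ nthRootsFinset (3 ^ j) (1 : ℂ),
              (((3 ^ (j + 1) : ℕ) : ℝ) * Real.log (2 * ‖M‖ + 2)) := by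
              apply Finset.sum_le_sum
              intro ζ hζ
              exact logMahler_eP_le M hη1 (norm_eq_one_of_mem (by positivity) hζ) hm
          _ = _ := by
              rw [Finset.sum_const,
                (Complex.isPrimitiveRoot_exp (3 ^ j) (by positivity)).card_nthRootsFinset,
                nsmul_eq_mul]
              push_cast
              ring
    _ = _ := by
        rw [Finset.sum_const,
          (Complex.isPrimitiveRoot_exp (3 ^ (j + 1)) (by positivity)).card_nthRootsFinset,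
          nsmul_eq_mul]
        push_cast
        ring

/-- cube roots of unity -/
theorem norm_one_sub_cube {w : ℂ} (h3 : w ^ 3 = 1) (h1 : w ≠ 1) : ‖1 - w‖ ^ 2 = 3 := by
  have hfac : (w - 1) * (w ^ 2 + w + 1) = 0 := by
    have : (w - 1) * (w ^ 2 + w + 1) = w ^ 3 - 1 := by ring
    rw [this, h3, sub_self]
  have hq : w ^ 2 + w + 1 = 0 := by
    rcases mul_eq_zero.mp hfac with h | h
    · exact absurd (sub_eq_zero.mp h) h1
    · exact h
  have hnorm : ‖w‖ = 1 := Complex.norm_eq_one_of_pow_eq_one h3 (by norm_num)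
  have e1 : w.re * w.re + w.im * w.im = 1 := by
    have := Complex.normSq_eq_norm_sq w
    rw [Complex.normSq_apply, hnorm] at this
    linarith
  have e2 := congrArg Complex.re hq
  simp only [Complex.add_re, Complex.one_re, Complex.zero_re, pow_two, Complex.mul_re] at e2
  have e3 := congrArg Complex.im hq
  simp only [Complex.add_im, Complex.one_im, Complex.zero_im, pow_two, Complex.mul_im] at e3
  have hre : w.re = -1 / 2 := by
    have e4 : w.im * (2 * w.re + 1) = 0 := by linarith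
    rcases mul_eq_zero.mp e4 with h | h
    · exfalso
      rw [h] at e1 e2
      nlinarith
    · linarith
  rw [← Complex.normSq_eq_norm_sq, Complex.normSq_apply]
  simp only [Complex.sub_re, Complex.one_re, Complex.sub_im, Complex.one_im]
  rw [hre] at e1 ⊢
  nlinarith

theorem eP_ge {m : ℕ} (hm : 3 ≤ m) {ζ : ℂ} (hζ : IsPrimitiveRoot ζ m) {M : ℂ} (hM : 3 ≤ ‖M‖)
    {η z : ℂ} (h3 : (η ^ m) ^ 3 = 1) (h1 : η ^ m ≠ 1) (hz : ‖z‖ = 1) :
    ‖M‖ ^ m ≤ ‖(eP m M η ζ).eval z‖ := by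
  have hm0 : 0 < m := by omega
  simp only [eP, eval_add, eval_mul, eval_pow, eval_sub, eval_one, eval_X, eval_C]
  rw [prod_primitive hm0 hζ]
  have hA : ‖(1 - z ^ 2) ^ m‖ ≤ 2 ^ m := by
    rw [norm_pow]
    gcongr
    calc ‖1 - z ^ 2‖ ≤ ‖(1 : ℂ)‖ + ‖z ^ 2‖ := norm_sub_le _ _
      _ = 2 := by rw [norm_pow, hz]; norm_num
  have hB : ‖M ^ m * (1 - η ^ m) * z ^ m‖ = ‖M‖ ^ m * ‖1 - η ^ m‖ := by
    rw [norm_mul, norm_mul, norm_pow, norm_pow, hz, one_pow, mul_one]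
  have hs : (173 / 100 : ℝ) ≤ ‖1 - η ^ m‖ := by
    have := norm_one_sub_cube h3 h1
    have h0 := norm_nonneg (1 - η ^ m)
    nlinarith
  have hpow : (2 : ℝ) ^ m ≤ (73 / 100) * ‖M‖ ^ m := by
    obtain ⟨n, rfl⟩ := Nat.exists_eq_add_of_le hm
    rw [pow_add, pow_add]
    have h5 : (2 : ℝ) ^ n ≤ ‖M‖ ^ n := by gcongr; linarith
    have h6 : (27 : ℝ) ≤ ‖M‖ ^ 3 := by
      calc (27 : ℝ) = 3 ^ 3 := by norm_num
        _ ≤ ‖M‖ ^ 3 := by gcongr
    have h7 : (0 : ℝ) < 2 ^ n := by positivity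
    nlinarith
  have h4 : ‖M ^ m * (1 - η ^ m) * z ^ m‖ - ‖(1 - z ^ 2) ^ m‖ ≤
      ‖(1 - z ^ 2) ^ m + M ^ m * (1 - η ^ m) * z ^ m‖ := by
    rw [add_comm]
    have := norm_sub_norm_le (M ^ m * (1 - η ^ m) * z ^ m) (-((1 - z ^ 2) ^ m))
    rwa [norm_neg, sub_neg_eq_add] at this
  rw [hB] at h4
  have h8 : (0 : ℝ) ≤ ‖M‖ ^ m := by positivity
  nlinarith

theorem S_type2 (j : ℕ) (M : ℂ) (hM : ∃ N : ℕ, 3 ≤ N ∧ (M = N ∨ M = -N)) :
    (4 * 3 ^ (2 * j + 1) * 3 ^ (j + 1) : ℝ) * Real.log ‖M‖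
      ≤ S (3 ^ (j + 2)) (3 ^ (j + 1)) (3 ^ (j + 1)) M := by
  have hM3 : 3 ≤ ‖M‖ := by
    obtain ⟨N, hN, h | h⟩ := hM
    · rw [h, Complex.norm_natCast]; exact_mod_cast hN
    · rw [h, norm_neg, Complex.norm_natCast]; exact_mod_cast hN
  have hm : 0 < 3 ^ (j + 1) := by positivity
  have hm3 : 3 ≤ 3 ^ (j + 1) := by
    calc 3 = 3 ^ 1 := by norm_num
      _ ≤ 3 ^ (j + 1) := Nat.pow_le_pow_right (by norm_num) (by omega)
  have hc : ∀ i, (primitiveRoots (3 ^ (i + 1)) ℂ).card = 2 * 3 ^ i := by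
    intro i
    rw [(Complex.isPrimitiveRoot_exp (3 ^ (i + 1)) (by positivity)).card_primitiveRoots,
      Nat.totient_prime_pow Nat.prime_three (Nat.succ_pos i)]
    simp [mul_comm]
  unfold S
  have hlog : ∀ η ∈ primitiveRoots (3 ^ (j + 2)) ℂ, ∀ ζ ∈ primitiveRoots (3 ^ (j + 1)) ℂ,
      ((3 ^ (j + 1) : ℕ) : ℝ) * Real.log ‖M‖ ≤ (eP (3 ^ (j + 1)) M η ζ).logMahlerMeasure := by
    intro η hη ζ hζ
    rw [mem_primitiveRoots (by positivity)] at hη hζ
    rw [← Real.log_pow]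
    apply le_logMahler
    · have : 0 < ‖M‖ := by linarith
      positivity
    · intro z hz
      apply eP_ge hm3 hζ hM3 _ _ hz
      · rw [← pow_mul, ← pow_succ]
        exact hη.pow_eq_one
      · intro h
        have h2 := hη.dvd_of_pow_eq_one _ h
        have h3 := Nat.le_of_dvd (by positivity) h2
        have h4 : 3 ^ (j + 1) < 3 ^ (j + 2) :=
          Nat.pow_lt_pow_right (by norm_num) (Nat.lt_succ_self _)
        omega
  calc (4 * 3 ^ (2 * j + 1) * 3 ^ (j + 1) : ℝ) * Real.log ‖M‖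
      = ∑ η ∈ primitiveRoots (3 ^ (j + 2)) ℂ, ∑ ζ ∈ primitiveRoots (3 ^ (j + 1)) ℂ,
          ((3 ^ (j + 1) : ℕ) : ℝ) * Real.log ‖M‖ := by
        rw [Finset.sum_const, Finset.sum_const, hc, hc]
        simp only [nsmul_eq_mul]
        push_cast
        ring
    _ ≤ ∑ η ∈ primitiveRoots (3 ^ (j + 2)) ℂ, ∑ ζ ∈ primitiveRoots (3 ^ (j + 1)) ℂ,
          (eP (3 ^ (j + 1)) M η ζ).logMahlerMeasure :=
        Finset.sum_le_sum fun η hη => Finset.sum_le_sum fun ζ hζ => hlog η hη ζ hζ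
    _ ≤ ∑ η ∈ primitiveRoots (3 ^ (j + 2)) ℂ, ∑ ζ ∈ nthRootsFinset (3 ^ (j + 1)) (1 : ℂ),
          (eP (3 ^ (j + 1)) M η ζ).logMahlerMeasure := by
        apply Finset.sum_le_sum
        intro η _
        apply Finset.sum_le_sum_of_subset_of_nonneg
        · rw [roots_split]; exact Finset.subset_union_left
        · intro ζ _ _; exact logMahler_eP_nonneg hm _ _ _
    _ ≤ _ := by
        apply Finset.sum_le_sum_of_subset_of_nonneg
        · rw [show j + 2 = (j + 1) + 1 from rfl, roots_split]; exact Finset.subset_union_left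
        · intro η _ _
          exact Finset.sum_nonneg fun ζ _ => logMahler_eP_nonneg hm _ _ _

end Pool.Agent.TH461.J893
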